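import Mathlib

set_option autoImplicit false
set_option linter.unusedSectionVars false

namespace Pool.Agent.H.MP_9d555c_an

open MeasureTheory Filter Topology Set Real
open scoped ENNReal ComplexConjugate

variable {E : Type} [NormedAddCommGroup E] [ProperSpace E] [MeasurableSpace E] [BorelSpace E]
  {μ : Measure E} [IsFiniteMeasureOnCompacts μ]

/-- principal values -/
def PV (k : E → ℂ) (μ : Measure E) (f : E → ℝ) (g : E → ℂ) : Prop :=
  ∀ᵐ x ∂μ, Tendsto (fun ε : ℝ => ∫ y in {y | ε < ‖x - y‖}, k (x - y) * f y ∂μ) (𝓝[>] 0) (𝓝 (g x))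

/-- the norm bound -/
def Hyp (k : E → ℂ) (μ : Measure E) (β : E → ℝ) (δ : ℝ) : Prop :=
  ∀ f : E → ℝ, Measurable f → (∃ M, ∀ x, |f x| ≤ M) → HasCompactSupport f →
    Integrable (fun y => exp (β y) * f y) μ →
    ∃ g h : E → ℂ, PV k μ f g ∧ PV k μ (fun y => exp (β y) * f y) h ∧
      eLpNorm (fun x => g x - exp (-β x) * h x) 2 μ ≤ ENNReal.ofReal δ * eLpNorm f 2 μ

variable {k : E → ℂ} {β : E → ℝ} {δ : ℝ}

lemma int_k (hk : ContinuousOn k {0}ᶜ) {φ : E → ℝ} (hφ : Integrable φ μ) {x : E} {ρ R : ℝ}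
    (hρ : 0 < ρ) (h : ∀ y, φ y ≠ 0 → ρ ≤ ‖x - y‖ ∧ ‖y‖ ≤ R) :
    Integrable (fun y => k (x - y) * φ y) μ := by
  have hK : IsCompact (Metric.closedBall (0 : E) R ∩ {y | ρ ≤ ‖x - y‖}) :=
    (isCompact_closedBall _ _).inter_right (isClosed_le continuous_const (by fun_prop))
  have h1 : IntegrableOn (fun y => k (x - y) * φ y) _ μ :=
    IntegrableOn.continuousOn_mul (hk.comp (by fun_prop) fun y hy e => by
      have := hy.2
      rw [mem_ofPred, show x - y = 0 from e, norm_zero] at this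
      linarith) hφ.ofReal.integrableOn hK
  refine (integrableOn_iff_integrable_of_support_subset fun y hy => ?_).1 h1
  have := h y fun e => hy (by simp [e])
  exact ⟨by simpa using this.2, this.1⟩

lemma pv_eq {φ : E → ℝ} {x : E} {ρ : ℝ} (hρ : 0 < ρ) (h : ∀ y, φ y ≠ 0 → ρ ≤ ‖x - y‖) {g : ℂ}
    (hg : Tendsto (fun ε : ℝ => ∫ y in {y | ε < ‖x - y‖}, k (x - y) * φ y ∂μ) (𝓝[>] 0) (𝓝 g)) :
    g = ∫ y, k (x - y) * φ y ∂μ := by
  refine tendsto_nhds_unique hg (tendsto_const_nhds.congr' ?_)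
  filter_upwards [nhdsWithin_le_nhds (gt_mem_nhds hρ)] with ε hε
  refine (setIntegral_eq_integral_of_forall_compl_eq_zero fun y hy => ?_).symm
  by_cases e : φ y = 0
  · simp [e]
  · exact (hy (hε.trans_le (h y e))).elim

theorem key0 (hk : ContinuousOn k {0}ᶜ) (hβ : Measurable β) (H : Hyp k μ β δ) {G F : Set E}
    (hG : MeasurableSet G) (hF : MeasurableSet F) {R M ρ c σ : ℝ} {w : ℂ} {V : ℝ≥0∞}
    (hR : ∀ y ∈ F, ‖y‖ ≤ R) (hM : ∀ y ∈ F, β y ≤ M) (hρ : 0 < ρ) (hc : 0 ≤ c) (hσ : |σ| = 1)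
    (hV : μ G ≤ V) (hV' : μ F ≤ V)
    (h1 : ∀ x ∈ G, ∀ y ∈ F, ρ ≤ ‖x - y‖ ∧ c ≤ (conj w * k (x - y)).re)
    {u v : E → ℝ≥0∞} (hu : Measurable u)
    (h2 : ∀ x ∈ G, ∀ y ∈ F, 0 ≤ σ * (1 - exp (β y - β x)) ∧
      u x * v y ≤ ENNReal.ofReal (σ * (1 - exp (β y - β x)))) :
    ENNReal.ofReal c * ((∫⁻ x in G, u x ∂μ) * ∫⁻ y in F, v y ∂μ) ≤
      ‖w‖₊ * ENNReal.ofReal δ * V := by
  have hFm : μ F < ∞ := (measure_mono fun y hy => by simpa using hR y hy).trans_lt
    (isCompact_closedBall (0 : E) R).measure_lt_top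
  let f : E → ℝ := F.indicator fun _ => 1
  have f0 : ∀ y, f y ≠ 0 → y ∈ F := fun y hy => mem_of_indicator_ne_zero hy
  have i1 : Integrable f μ := (integrable_indicator_iff hF).2 (integrableOn_const hFm.ne)
  have i2 : Integrable (fun y => exp (β y) * f y) μ := by
    refine (i1.const_mul (exp M)).mono' ((hβ.exp.mul (measurable_const.indicator hF))).aestronglyMeasurable
      (.of_forall fun y => ?_)
    by_cases hy : y ∈ F
    · simpa [f, hy] using hM y hy
    · simp [f, hy]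
  obtain ⟨g, h, pg, ph, hn⟩ := H f (measurable_const.indicator hF)
    ⟨1, fun x => by by_cases hx : x ∈ F <;> simp [f, hx]⟩
    (.intro (isCompact_closedBall (0 : E) R) fun y hy => by
      by_contra e
      exact hy (by simpa using hR y (f0 y e))) i2
  have hpt : ∀ᵐ x ∂μ.restrict G, ‖ENNReal.ofReal c * (u x * ∫⁻ y in F, v y ∂μ)‖ₑ ≤
      ‖w‖₊ * ‖g x - exp (-β x) * h x‖ₑ := by
    filter_upwards [ae_restrict_mem hG, ae_restrict_of_ae pg, ae_restrict_of_ae ph] with x hx e1 e2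
    have s1 : ∀ y, f y ≠ 0 → ρ ≤ ‖x - y‖ := fun y hy => (h1 x hx y (f0 y hy)).1
    have s2 : ∀ y, exp (β y) * f y ≠ 0 → y ∈ F := fun y hy => f0 y (right_ne_zero_of_mul hy)
    have j1 := int_k hk i1 hρ fun y hy => ⟨s1 y hy, hR y (f0 y hy)⟩
    have j2 := int_k hk i2 hρ fun y hy => ⟨(h1 x hx y (s2 y hy)).1, hR y (s2 y hy)⟩
    rw [pv_eq hρ s1 e1, pv_eq hρ (fun y hy => (h1 x hx y (s2 y hy)).1) e2, ← integral_const_mul,
      ← integral_sub j1 (j2.const_mul _)]
    let ψ : E → ℝ := fun y => σ * (f y - exp (-β x) * (exp (β y) * f y))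
    have i3 : Integrable ψ μ := (i1.sub (i2.const_mul _)).const_mul σ
    have e3 : ∀ y ∈ F, ψ y = σ * (1 - exp (β y - β x)) := fun y hy => by
      simp only [ψ, f, indicator_of_mem hy, mul_one, ← exp_add, neg_add_eq_sub]
    have e4 : ∀ y ∉ F, ψ y = 0 := fun y hy => by simp [ψ, f, hy]
    have ψ0 : ∀ y, 0 ≤ ψ y := fun y => by
      by_cases hy : y ∈ F
      · rw [e3 y hy]; exact (h2 x hx y hy).1
      · rw [e4 y hy]
    have j3 : Integrable (fun y => (σ * conj w) * (k (x - y) * f y - exp (-β x) *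
        (k (x - y) * (exp (β y) * f y : ℝ)))) μ := (j1.sub (j2.const_mul _)).const_mul _
    have e5 : ∫ y, c * ψ y ∂μ ≤ ‖w‖ * ‖∫ y, (k (x - y) * f y - exp (-β x) *
        (k (x - y) * (exp (β y) * f y : ℝ))) ∂μ‖ := by
      calc _ ≤ ∫ y, RCLike.re ((σ * conj w) * (k (x - y) * f y - exp (-β x) *
            (k (x - y) * (exp (β y) * f y : ℝ)))) ∂μ := by
            refine integral_mono (i3.const_mul c) j3.re fun y => ?_
            have : (σ * conj w) * (k (x - y) * f y - exp (-β x) *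
                (k (x - y) * (exp (β y) * f y : ℝ))) = (ψ y : ℂ) * (conj w * k (x - y)) := by
              simp only [ψ]; push_cast; ring
            simp only [this, RCLike.re_to_complex, Complex.re_ofReal_mul]
            by_cases hy : y ∈ F
            · rw [mul_comm]; exact mul_le_mul_of_nonneg_left (h1 x hx y hy).2 (ψ0 y)
            · simp [e4 y hy]
        _ ≤ _ := by
            rw [integral_re j3, integral_const_mul]
            refine (RCLike.re_le_norm _).trans_eq ?_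
            simp [hσ]
    calc _ ≤ ENNReal.ofReal c * ∫⁻ y, ENNReal.ofReal (ψ y) ∂μ := by
          rw [enorm_eq_self]
          gcongr
          refine (lintegral_const_mul_le _ _).trans ((setLIntegral_mono' hF fun y hy => ?_).trans
            (setLIntegral_le_lintegral F _))
          rw [e3 y hy]; exact (h2 x hx y hy).2
      _ ≤ _ := by
          rw [← ofReal_integral_eq_lintegral_ofReal i3 (.of_forall ψ0), ← ENNReal.ofReal_mul hc,
            ← integral_const_mul]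
          refine (ENNReal.ofReal_le_ofReal e5).trans_eq ?_
          rw [ENNReal.ofReal_mul (norm_nonneg _), ofReal_norm, ofReal_norm]
          rfl
  have a1 := eLpNorm_le_eLpNorm_mul_rpow_measure_univ (μ := μ.restrict G) one_le_two
    (f := fun x => ENNReal.ofReal c * (u x * ∫⁻ y in F, v y ∂μ))
    ((hu.mul_const _).const_mul _).aestronglyMeasurable
  rw [eLpNorm_one_eq_lintegral_enorm] at a1
  simp only [enorm_eq_self] at a1
  rw [lintegral_const_mul _ (hu.mul_const _), lintegral_mul_const _ hu] at a1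
  have a2 := (eLpNorm_le_mul_eLpNorm_of_ae_le_mul' hpt 2).trans
    (mul_le_mul_right ((eLpNorm_restrict_le _ _ _ _).trans hn) _)
  rw [eLpNorm_indicator_const hF two_ne_zero ENNReal.ofNat_ne_top] at a2
  refine a1.trans ?_
  have e : (1 / (1 : ℝ≥0∞).toReal - 1 / (2 : ℝ≥0∞).toReal) = 1 / 2 := by norm_num
  rw [e, Measure.restrict_apply_univ]
  calc _ ≤ ‖w‖₊ * (ENNReal.ofReal δ * (‖(1 : ℝ)‖ₑ * V ^ (1 / 2 : ℝ))) * V ^ (1 / 2 : ℝ) := by
        refine mul_le_mul' (a2.trans ?_) (by gcongr)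
        rw [ENNReal.toReal_ofNat]
        gcongr
    _ = _ := by
        rw [enorm_one, one_mul, mul_assoc, mul_assoc, ← ENNReal.rpow_add_of_nonneg _ _ (by norm_num)
          (by norm_num), mul_assoc]
        norm_num

theorem key (hk : ContinuousOn k {0}ᶜ) (hβ : Measurable β) (H : Hyp k μ β δ) {G F : Set E}
    (hG : MeasurableSet G) (hF : MeasurableSet F) {R ρ c σ : ℝ} {w : ℂ} {V : ℝ≥0∞}
    (hR : ∀ y ∈ F, ‖y‖ ≤ R) (hρ : 0 < ρ) (hc : 0 ≤ c) (hσ : |σ| = 1)
    (hV : μ G ≤ V) (hV' : μ F ≤ V)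
    (h1 : ∀ x ∈ G, ∀ y ∈ F, ρ ≤ ‖x - y‖ ∧ c ≤ (conj w * k (x - y)).re)
    {u v : E → ℝ≥0∞} (hu : Measurable u)
    (h2 : ∀ x ∈ G, ∀ y ∈ F, 0 ≤ σ * (1 - exp (β y - β x)) ∧
      u x * v y ≤ ENNReal.ofReal (σ * (1 - exp (β y - β x)))) :
    ENNReal.ofReal c * ((∫⁻ x in G, u x ∂μ) * ∫⁻ y in F, v y ∂μ) ≤
      ‖w‖₊ * ENNReal.ofReal δ * V := by
  have : F = ⋃ M : ℕ, F ∩ {y | β y ≤ M} := by
    ext y
    simpa using fun _ => exists_nat_ge (β y)
  have hm : Monotone fun M : ℕ => F ∩ {y | β y ≤ M} := fun a b h y hy =>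
    ⟨hy.1, (show β y ≤ (a : ℝ) from hy.2).trans (Nat.cast_le.2 h)⟩
  rw [this, setLIntegral_iUnion_of_directed _ hm.directed_le, ENNReal.mul_iSup, ENNReal.mul_iSup]
  exact iSup_le fun M => key0 hk hβ H hG (hF.inter (measurableSet_le hβ measurable_const))
    (fun y hy => hR y hy.1) (fun y hy => hy.2) hρ hc hσ hV
    ((measure_mono inter_subset_left).trans hV') (fun x hx y hy => h1 x hx y hy.1) hu
    fun x hx y hy => h2 x hx y hy.1

lemma median (hβ : Measurable β) {Q : Set E} (hQ : MeasurableSet Q) (h0 : μ Q ≠ 0)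
    (h1 : μ Q ≠ ∞) :
    ∃ m, μ Q ≤ 2 * μ (Q ∩ {y | β y ≤ m}) ∧ μ Q ≤ 2 * μ (Q ∩ {y | m ≤ β y}) := by
  let s : ℝ → Set E := fun t => Q ∩ {y | β y ≤ t}
  have sm : Monotone s := fun a b h y hy => ⟨hy.1, le_trans hy.2 h⟩
  have ms : ∀ t, NullMeasurableSet (s t) μ := fun t =>
    (hQ.inter (measurableSet_le hβ measurable_const)).nullMeasurableSet
  have fs : ∀ t, μ (s t) ≠ ∞ := fun t => ne_top_of_le_ne_top h1 (measure_mono inter_subset_left)
  have c2 : Continuous fun x : ℝ≥0∞ => 2 * x := ENNReal.continuous_const_mul (by simp)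
  let S := {t | μ Q ≤ 2 * μ (s t)}
  have hne : S.Nonempty := by
    have := (c2.tendsto _).comp (tendsto_measure_iUnion_atTop (μ := μ) sm)
    rw [show ⋃ t, s t = Q by ext y; simpa [s] using fun _ => ⟨β y, le_rfl⟩] at this
    exact (this.eventually (le_mem_nhds (by
      rw [two_mul]; exact ENNReal.lt_add_right h1 h0))).exists
  have hbd : BddBelow S := by
    have := (c2.tendsto _).comp (tendsto_measure_iInter_atBot ms sm ⟨0, fs 0⟩)
    rw [show ⋂ t, s t = ∅ from eq_empty_of_forall_notMem fun y hy => by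
      have : β y ≤ β y - 1 := (mem_iInter.1 hy _).2
      linarith, measure_empty, mul_zero] at this
    obtain ⟨t, ht⟩ := (this.eventually (gt_mem_nhds (pos_iff_ne_zero.2 h0))).exists
    refine ⟨t, fun r hr => le_of_not_ge fun e => ht.not_ge (le_trans hr ?_)⟩
    exact mul_le_mul_right (measure_mono (sm e)) _
  refine ⟨sInf S, ?_, ?_⟩
  · have := (c2.tendsto _).comp (tendsto_measure_biInter_gt (a := sInf S) (fun r _ => ms r)
      (fun i j _ h => sm h) ⟨sInf S + 1, by simp, fs _⟩)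
    rw [show ⋂ r > sInf S, s r = s (sInf S) from Subset.antisymm (fun y hy =>
      ⟨(mem_iInter₂.1 hy (sInf S + 1) (by simp)).1, le_of_forall_gt_imp_ge_of_dense fun r hr =>
        (mem_iInter₂.1 hy r hr).2⟩) (subset_iInter₂ fun r hr => sm hr.le)] at this
    refine ge_of_tendsto this ?_
    filter_upwards [self_mem_nhdsWithin] with r hr
    obtain ⟨t, ht, h⟩ := exists_lt_of_csInf_lt hne hr
    exact le_trans ht (mul_le_mul_right (measure_mono (sm h.le)) _)
  · have hm : Monotone fun n : ℕ => s (sInf S - 1 / (n + 1)) := fun a b h => sm (by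
      have := one_div_le_one_div_of_le (Nat.cast_add_one_pos a)
        (show (a : ℝ) + 1 ≤ b + 1 by simpa using h)
      linarith)
    have := (c2.tendsto _).comp (tendsto_measure_iUnion_atTop (μ := μ) hm)
    have h2 := le_of_tendsto' this (b := μ Q) fun n => le_of_not_ge fun e => by
      have := csInf_le hbd (show sInf S - 1 / (n + 1) ∈ S from e)
      linarith [Nat.one_div_pos_of_nat (α := ℝ) (n := n)]
    have h3 : μ Q ≤ μ (⋃ n : ℕ, s (sInf S - 1 / (n + 1))) + μ (Q ∩ {y | sInf S ≤ β y}) := by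
      refine (measure_mono fun y hy => ?_).trans (measure_union_le _ _)
      rcases lt_or_ge (β y) (sInf S) with e | e
      · obtain ⟨n, hn⟩ := exists_nat_one_div_lt (sub_pos.2 e)
        exact .inl (mem_iUnion.2 ⟨n, hy, show β y ≤ _ by linarith⟩)
      · exact .inr ⟨hy, e⟩
    refine (ENNReal.add_le_add_iff_left h1).1 ?_
    calc _ = 2 * μ Q := (two_mul _).symm
      _ ≤ _ := (mul_le_mul_right h3 2).trans_eq (mul_add _ _ _)
      _ ≤ _ := add_le_add_left h2 _

lemma sg1 {s t : ℝ} (h : 0 ≤ s) (h' : s ≤ t) : 0 ≤ -1 * (1 - exp t) ∧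
    ENNReal.ofReal |1 - exp s| ≤ ENNReal.ofReal (-1 * (1 - exp t)) := by
  have := one_le_exp h
  have := exp_le_exp.2 h'
  exact ⟨by linarith, ENNReal.ofReal_le_ofReal (abs_le.2 ⟨by linarith, by linarith⟩)⟩

lemma sg2 {s t : ℝ} (h : s ≤ 0) (h' : t ≤ s) : 0 ≤ 1 * (1 - exp t) ∧
    ENNReal.ofReal |1 - exp s| ≤ ENNReal.ofReal (1 * (1 - exp t)) := by
  have := exp_le_one_iff.2 h
  have := exp_le_exp.2 h'
  exact ⟨by linarith, ENNReal.ofReal_le_ofReal (abs_le.2 ⟨by linarith, by linarith⟩)⟩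

lemma low {x s : ℝ} (h : 0 ≤ x) (h1 : x ≤ 1) (hs : s ≤ -x) : x / 2 ≤ |1 - exp s| := by
  refine le_trans ?_ (le_abs_self _)
  have h2 := exp_le_exp.2 hs
  have h3 := add_one_le_exp x
  have h4 : exp (-x) * exp x = 1 := by rw [← exp_add]; simp
  have h5 := exp_pos (-x)
  nlinarith [mul_nonneg h (sub_nonneg.2 h1), mul_le_mul_of_nonneg_left h3 h5.le]

lemma half {a b η V : ℝ≥0∞} (h : a * b ≤ η * V * V) (hb : V ≤ 2 * b) (h0 : V ≠ 0) (h1 : V ≠ ∞) :
    a ≤ 2 * η * V := by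
  refine (ENNReal.mul_le_mul_iff_left h0 h1).1 ?_
  calc a * V ≤ 2 * (a * b) := (mul_le_mul_right hb a).trans_eq (by ring)
    _ ≤ _ := (mul_le_mul_right h 2).trans_eq (by ring)

lemma spl (Q : Set E) (β : E → ℝ) (m : ℝ) (A : E → ℝ≥0∞) : ∫⁻ x in Q, A x ∂μ ≤
    ∫⁻ x in Q ∩ {y | β y ≤ m}, A x ∂μ + ∫⁻ x in Q ∩ {y | m ≤ β y}, A x ∂μ :=
  (lintegral_mono_set fun y hy => (le_total (β y) m).imp (fun e => ⟨hy, e⟩) fun e => ⟨hy, e⟩).trans
    (lintegral_union_le _ _ _)

theorem osc (hk : ContinuousOn k {0}ᶜ) (hβ : Measurable β) (H : Hyp k μ β δ) {Q Q' Q'' : Set E}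
    (hQ : MeasurableSet Q) (hQ' : MeasurableSet Q') (hQ'' : MeasurableSet Q'') {R ρ c η : ℝ} {w : ℂ}
    (hR : ∀ y ∈ Q, ‖y‖ ≤ R) (hR' : ∀ y ∈ Q', ‖y‖ ≤ R) (hρ : 0 < ρ) (hc : 0 < c)
    (h0 : μ Q ≠ 0) (hf : μ Q ≠ ∞) (hV' : μ Q' = μ Q) (hV'' : μ Q'' = μ Q)
    (h1 : ∀ x ∈ Q, ∀ y ∈ Q', ρ ≤ ‖x - y‖ ∧ c ≤ (conj w * k (x - y)).re)
    (h2 : ∀ x ∈ Q'', ∀ y ∈ Q, ρ ≤ ‖x - y‖ ∧ c ≤ (conj w * k (x - y)).re)
    (hη0 : 0 ≤ η) (hη1 : 32 * η < 1)
    (hη : ‖w‖₊ * ENNReal.ofReal δ ≤ ENNReal.ofReal c * (ENNReal.ofReal η * μ Q))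
    (hi : IntegrableOn β Q μ) :
    ⨍⁻ x in Q, ‖β x - ⨍ y in Q, β y ∂μ‖ₑ ∂μ ≤ ENNReal.ofReal (80 * η) := by
  have cn : ∀ a : ℝ≥0∞, ENNReal.ofReal c * a ≤ ‖w‖₊ * ENNReal.ofReal δ * μ Q →
      a ≤ ENNReal.ofReal η * μ Q * μ Q := fun a h =>
    (ENNReal.mul_le_mul_iff_right (by simpa using hc) ENNReal.ofReal_ne_top).1
      (h.trans ((mul_le_mul_left hη _).trans_eq (mul_assoc _ _ _)))
  have ml : ∀ m, MeasurableSet {y | β y ≤ m} := fun m => measurableSet_le hβ measurable_const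
  have mg : ∀ m, MeasurableSet {y | m ≤ β y} := fun m => measurableSet_le measurable_const hβ
  have sb : ∀ {S : Set E} (T : Set E), μ S = μ Q → μ (S ∩ T) ≤ μ Q := fun T h =>
    (measure_mono inter_subset_left).trans h.le
  obtain ⟨m, m1, m2⟩ := median (μ := μ) hβ hQ' (hV' ▸ h0) (hV' ▸ hf)
  obtain ⟨m', m3, m4⟩ := median (μ := μ) hβ hQ'' (hV'' ▸ h0) (hV'' ▸ hf)
  rw [hV'] at m1 m2
  rw [hV''] at m3 m4
  let A : E → ℝ≥0∞ := fun x => ENNReal.ofReal |1 - exp (m - β x)|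
  let B : E → ℝ≥0∞ := fun x => ENNReal.ofReal |1 - exp (β x - m')|
  have mA : Measurable A := by fun_prop
  have a1 := half (cn _ (key hk hβ H (hQ.inter (ml m)) (hQ'.inter (mg m)) (σ := -1)
    (fun y hy => hR' y hy.1) hρ hc.le (by simp) (sb _ rfl) (sb _ hV')
    (fun x hx y hy => h1 x hx.1 y hy.1) (v := fun _ => 1) mA fun x hx y hy => by
      rw [mul_one]
      exact sg1 (sub_nonneg.2 hx.2) (sub_le_sub_right hy.2 _))) (by simpa using m2) h0 hf
  have a2 := half (cn _ (key hk hβ H (hQ.inter (mg m)) (hQ'.inter (ml m)) (σ := 1)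
    (fun y hy => hR' y hy.1) hρ hc.le (by simp) (sb _ rfl) (sb _ hV')
    (fun x hx y hy => h1 x hx.1 y hy.1) (v := fun _ => 1) mA fun x hx y hy => by
      rw [mul_one]
      exact sg2 (sub_nonpos.2 hx.2) (sub_le_sub_right hy.2 _))) (by simpa using m1) h0 hf
  have b1 := half ((mul_comm _ _).trans_le (cn _ (key hk hβ H (hQ''.inter (mg m'))
    (hQ.inter (ml m')) (σ := 1) (fun y hy => hR y hy.1) hρ hc.le (by simp) (sb _ hV'') (sb _ rfl)
    (fun x hx y hy => h2 x hx.1 y hy.1) (u := fun _ => 1) (v := B) measurable_const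
    fun x hx y hy => by
      rw [one_mul (B y)]
      exact sg2 (sub_nonpos.2 hy.2) (sub_le_sub_left hx.2 _)))) (by simpa using m4) h0 hf
  have b2 := half ((mul_comm _ _).trans_le (cn _ (key hk hβ H (hQ''.inter (ml m'))
    (hQ.inter (mg m')) (σ := -1) (fun y hy => hR y hy.1) hρ hc.le (by simp) (sb _ hV'') (sb _ rfl)
    (fun x hx y hy => h2 x hx.1 y hy.1) (u := fun _ => 1) (v := B) measurable_const
    fun x hx y hy => by
      rw [one_mul (B y)]
      exact sg1 (sub_nonneg.2 hy.2) (sub_le_sub_left hx.2 _)))) (by simpa using m3) h0 hf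
  have ab : ∫⁻ x in Q, (A x + B x) ∂μ ≤ ENNReal.ofReal (8 * η) * μ Q := by
    rw [lintegral_add_left mA, ENNReal.ofReal_mul (by norm_num), ENNReal.ofReal_ofNat]
    refine (add_le_add ((spl Q β m A).trans (add_le_add a1 a2))
      ((spl Q β m' B).trans (add_le_add b1 b2))).trans_eq (by ring)
  have hd : m' - m ≤ 32 * η := by
    by_contra e
    have e0 : 0 ≤ min (m' - m) 1 / 2 := by
      have : 0 ≤ min (m' - m) 1 := le_min (by linarith) zero_le_one
      positivity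
    have e1 : min (m' - m) 1 / 2 ≤ 1 := by linarith [min_le_right (m' - m) 1]
    have : ENNReal.ofReal (min (m' - m) 1 / 2 / 2) * μ Q ≤ ENNReal.ofReal (8 * η) * μ Q := by
      refine le_trans ?_ ab
      rw [← setLIntegral_const]
      refine lintegral_mono fun x => ?_
      have := min_le_left (m' - m) 1
      rcases le_total (m - β x) (β x - m') with h | h
      · exact le_add_right (ENNReal.ofReal_le_ofReal (low e0 e1 (by linarith)))
      · exact le_add_left (ENNReal.ofReal_le_ofReal (low e0 e1 (by linarith)))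
    rw [ENNReal.mul_le_mul_iff_left h0 hf, ENNReal.ofReal_le_ofReal_iff (by positivity)] at this
    rcases min_choice (m' - m) 1 with h | h <;> rw [h] at this <;> linarith
  have c1 : ∫⁻ x in Q, ‖β x - m‖ₑ ∂μ ≤ ENNReal.ofReal (40 * η) * μ Q := by
    calc _ ≤ ∫⁻ x in Q, (A x + B x + ENNReal.ofReal (32 * η)) ∂μ := by
          refine lintegral_mono fun x => ?_
          simp only [A, B]
          rw [← ENNReal.ofReal_add (abs_nonneg _) (abs_nonneg _), ← ENNReal.ofReal_add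
            (by positivity) (by positivity), Real.enorm_eq_ofReal_abs]
          refine ENNReal.ofReal_le_ofReal (abs_le.2 ⟨?_, ?_⟩)
          · linarith [neg_abs_le (1 - exp (m - β x)), add_one_le_exp (m - β x),
              abs_nonneg (1 - exp (β x - m'))]
          · linarith [neg_abs_le (1 - exp (β x - m')), add_one_le_exp (β x - m'),
              abs_nonneg (1 - exp (m - β x))]
      _ ≤ _ := by
          rw [lintegral_add_right _ measurable_const, setLIntegral_const,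
            show 40 * η = 8 * η + 32 * η by ring, ENNReal.ofReal_add (by positivity) (by positivity),
            add_mul]
          exact add_le_add_left ab _
  have c2 : ‖m - ⨍ y in Q, β y ∂μ‖ₑ * μ Q ≤ ENNReal.ofReal (40 * η) * μ Q := by
    refine le_trans ?_ ((enorm_integral_le_lintegral_enorm _).trans c1)
    rw [integral_sub hi (integrableOn_const hf), ← measure_smul_setAverage _ hf, setIntegral_const,
      ← smul_sub, enorm_smul, enorm_sub_rev, mul_comm, Real.enorm_of_nonneg measureReal_nonneg,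
      ofReal_measureReal hf]
  rw [setLAverage_eq, ENNReal.div_le_iff h0 hf, show 80 * η = 40 * η + 40 * η by ring,
    ENNReal.ofReal_add (by positivity) (by positivity), add_mul]
  refine le_trans ?_ (add_le_add c1 c2)
  rw [← setLIntegral_const, ← lintegral_add_right _ measurable_const]
  refine lintegral_mono fun x => ?_
  simpa using enorm_add_le (β x - m) (m - ⨍ y in Q, β y ∂μ)

lemma Hyp.congr {β' : E → ℝ} (H : Hyp k μ β δ) (h : β =ᵐ[μ] β') : Hyp k μ β' δ := by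
  intro f f1 f2 f3 f4
  have e : (fun y => exp (β y) * f y) =ᵐ[μ] fun y => exp (β' y) * f y := by
    filter_upwards [h] with y hy
    rw [hy]
  obtain ⟨g, g', p1, p2, p3⟩ := H f f1 f2 f3 (f4.congr e.symm)
  refine ⟨g, g', p1, p2.mono fun x hx => hx.congr fun ε => integral_congr_ae ?_,
    (eLpNorm_congr_ae ?_).trans_le p3⟩
  · filter_upwards [ae_restrict_of_ae h] with y hy
    rw [hy]
  · filter_upwards [h] with y hy
    rw [hy]

end Pool.Agent.H.MP_9d555c_an
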