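import Mathlib
import Pool.Agent.H.MP_9d555c_an.A

set_option autoImplicit false

namespace Pool.Agent.H.MP_9d555c_an

open MeasureTheory Filter Topology Set Real
open scoped ENNReal ComplexConjugate

variable {n : ℕ}

/-- cubes -/
def cube (a : EuclideanSpace ℝ (Fin n)) (r : ℝ) : Set (EuclideanSpace ℝ (Fin n)) :=
  {x | ∀ i, a i ≤ x i ∧ x i ≤ a i + r}

lemma cube_eq (a : EuclideanSpace ℝ (Fin n)) (r : ℝ) :
    cube a r = WithLp.ofLp ⁻¹' Icc a.ofLp fun i => a i + r := by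
  ext x
  simp [cube, Pi.le_def, forall_and]

lemma cube_ms (a : EuclideanSpace ℝ (Fin n)) (r : ℝ) : MeasurableSet (cube a r) := by
  rw [cube_eq]
  exact (PiLp.volume_preserving_ofLp (Fin n)).measurable measurableSet_Icc

lemma cube_vol (a : EuclideanSpace ℝ (Fin n)) (r : ℝ) :
    volume (cube a r) = ENNReal.ofReal r ^ n := by
  rw [cube_eq, (PiLp.volume_preserving_ofLp (Fin n)).measure_preimage
    measurableSet_Icc.nullMeasurableSet, volume_Icc_pi]
  simp

lemma nrm {z : EuclideanSpace ℝ (Fin n)} {r : ℝ} (hr : 0 ≤ r) (h : ∀ i, |z i| ≤ r) :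
    ‖z‖ ≤ √n * r := by
  rw [EuclideanSpace.norm_eq, ← sqrt_sq hr, ← sqrt_mul (Nat.cast_nonneg n)]
  refine sqrt_le_sqrt ((Finset.sum_le_sum (g := fun _ => r ^ 2) fun i _ => ?_).trans_eq (by simp))
  rw [norm_eq_abs]
  exact pow_le_pow_left₀ (abs_nonneg _) (h i) 2

lemma cube_bd (a : EuclideanSpace ℝ (Fin n)) {r : ℝ} (hr : 0 ≤ r) :
    ∀ y ∈ cube a r, ‖y‖ ≤ ‖a‖ + √n * r := fun y hy => by
  have := nrm (z := y - a) hr fun i => abs_le.2 ⟨by simp; linarith [(hy i).1], by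
    simp; linarith [(hy i).2]⟩
  linarith [norm_le_insert' y a]

theorem main (Ω : EuclideanSpace ℝ (Fin n) → ℂ) (hΩ : ContinuousOn Ω (Metric.sphere 0 1))
    (hne : ∃ θ ∈ Metric.sphere (0 : EuclideanSpace ℝ (Fin n)) 1, Ω θ ≠ 0) {ε : ℝ} (hε : 0 < ε) :
    ∃ δ > 0, ∀ β, LocallyIntegrable β →
      Hyp (fun z => Ω (‖z‖⁻¹ • z) / (‖z‖ ^ n : ℝ)) volume β δ →
      ⨆ (a : EuclideanSpace ℝ (Fin n)) (r : ℝ) (_ : 0 < r),
        ⨍⁻ x in cube a r, ‖β x - ⨍ y in cube a r, β y‖ₑ ∂volume < ENNReal.ofReal ε := by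
  obtain ⟨θ, hθ, hw⟩ := hne
  rw [mem_sphere_zero_iff_norm] at hθ
  obtain ⟨k, hk⟩ : ∃ k : EuclideanSpace ℝ (Fin n) → ℂ,
    k = fun z => Ω (‖z‖⁻¹ • z) / (‖z‖ ^ n : ℝ) := ⟨_, rfl⟩
  have kc : ContinuousOn k {0}ᶜ := by
    rw [hk]
    refine (hΩ.comp ((continuousOn_id.norm.inv₀ fun z hz => norm_ne_zero_iff.2 hz).smul
      continuousOn_id) fun z hz => ?_).div (by fun_prop) fun z hz => by
        simpa using fun e => (hz e).elim
    rw [mem_sphere_zero_iff_norm]
    change ‖‖z‖⁻¹ • z‖ = 1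
    rw [norm_smul, norm_inv, norm_norm]
    exact inv_mul_cancel₀ (norm_ne_zero_iff.2 hz)
  have kh : ∀ t : ℝ, 0 < t → ∀ z, k (t • z) = k z / (t ^ n : ℝ) := fun t ht z => by
    simp only [hk, norm_smul, norm_of_nonneg ht.le, smul_smul, mul_pow]
    rw [mul_inv, mul_comm t⁻¹, mul_assoc, inv_mul_cancel₀ ht.ne', mul_one]
    push_cast
    rw [div_div, mul_comm]
  have kθ : k θ = Ω θ := by simp [hk, hθ]
  have w0 : 0 < ‖Ω θ‖ := norm_pos_iff.2 hw
  have ca : ContinuousAt (fun z => (conj (Ω θ) * k z).re) θ :=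
    Complex.continuous_re.continuousAt.comp ((kc.continuousAt (isOpen_compl_singleton.mem_nhds
      fun e => by rw [show θ = 0 from e] at hθ; simp at hθ)).const_mul _)
  obtain ⟨η0, hη0, hη⟩ := Metric.eventually_nhds_iff.1 ((ca.eventually (lt_mem_nhds (show
    ‖Ω θ‖ ^ 2 / 2 < _ by
      simp only [kθ, Complex.conj_mul', ← Complex.ofReal_pow, Complex.ofReal_re]
      linarith [pow_pos w0 2]))).and (continuous_norm.continuousAt.eventually
        (lt_mem_nhds (show 1 / 2 < ‖θ‖ by rw [hθ]; norm_num))))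
  obtain ⟨L, hL⟩ : ∃ L, L = √n / η0 + 1 := ⟨_, rfl⟩
  have L0 : 0 < L := by rw [hL]; positivity
  obtain ⟨η, hη'⟩ : ∃ η, η = min (ε / 100) (1 / 100) := ⟨_, rfl⟩
  have η0' : 0 < η := by rw [hη']; positivity
  have η1 : η ≤ ε / 100 := hη' ▸ min_le_left _ _
  have η2 : η ≤ 1 / 100 := hη' ▸ min_le_right _ _
  refine ⟨‖Ω θ‖ * η / (2 * L ^ n), by positivity, fun β hβ H => ?_⟩
  rw [← hk] at H
  refine lt_of_le_of_lt (iSup_le fun a => iSup_le fun r => iSup_le fun hr => ?_)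
    ((ENNReal.ofReal_lt_ofReal_iff hε).2 (show 80 * η < ε by linarith))
  have e := hβ.aestronglyMeasurable.ae_eq_mk
  have geo : ∀ a x y, x ∈ cube (a + (L * r) • θ) r → y ∈ cube a r → L * r / 2 ≤ ‖x - y‖ ∧
      ‖Ω θ‖ ^ 2 / 2 / (L * r) ^ n ≤ (conj (Ω θ) * k (x - y)).re := by
    intro a x y hx hy
    have Lr : 0 < L * r := mul_pos L0 hr
    have h1 := nrm (z := x - y - (L * r) • θ) hr.le fun i => by
      have := hx i
      have := hy i
      simp only [PiLp.add_apply, PiLp.sub_apply] at *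
      exact abs_le.2 ⟨by linarith, by linarith⟩
    obtain ⟨z, hz⟩ : ∃ z, x - y = (L * r) • z := ⟨(L * r)⁻¹ • (x - y), (smul_inv_smul₀ Lr.ne' _).symm⟩
    rw [hz, ← smul_sub, norm_smul, norm_of_nonneg Lr.le] at h1
    have h2 : dist z θ < η0 := by
      rw [dist_eq_norm]
      refine lt_of_mul_lt_mul_left (h1.trans_lt ?_) Lr.le
      rw [hL, add_mul, add_mul, mul_right_comm, div_mul_cancel₀ _ hη0.ne']
      linarith [mul_pos hr hη0]
    obtain ⟨h3, h4⟩ := hη h2
    rw [hz, kh _ Lr, norm_smul, norm_of_nonneg Lr.le, ← mul_div_assoc, Complex.div_ofReal_re]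
    exact ⟨by nlinarith, by gcongr⟩
  have hi : IntegrableOn β (cube a r) := (hβ.integrableOn_isCompact
    (isCompact_closedBall 0 (‖a‖ + √n * r))).mono_set fun y hy => by
      simpa using cube_bd a hr.le y hy
  have := osc (μ := volume) kc hβ.aestronglyMeasurable.stronglyMeasurable_mk.measurable (H.congr e)
    (cube_ms a r) (cube_ms (a - (L * r) • θ) r) (cube_ms (a + (L * r) • θ) r)
    (R := ‖a‖ + ‖a - (L * r) • θ‖ + √n * r) (η := η)
    (fun y hy => by linarith [cube_bd _ hr.le y hy, norm_nonneg (a - (L * r) • θ)])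
    (fun y hy => by linarith [cube_bd _ hr.le y hy, norm_nonneg a]) (by positivity) (by positivity)
    (by simp [cube_vol, hr]) (by simp [cube_vol]) (by simp [cube_vol]) (by simp [cube_vol])
    (fun x hx y hy => geo _ x y (by simpa using hx) hy) (fun x hx y hy => geo _ x y hx hy) η0'.le
    (by linarith) (by
      rw [cube_vol, ← ENNReal.ofReal_pow hr.le, ← ENNReal.ofReal_mul η0'.le,
        ← ENNReal.ofReal_mul (by positivity), ← ENNReal.ofReal_coe_nnreal,
        ← ENNReal.ofReal_mul (by positivity)]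
      refine ENNReal.ofReal_le_ofReal (le_of_eq ?_)
      simp only [coe_nnnorm, mul_pow]
      field_simp) (hi.congr_fun_ae (ae_restrict_of_ae e))
  refine le_of_eq_of_le ?_ this
  rw [average_congr (ae_restrict_of_ae e)]
  refine laverage_congr ?_
  filter_upwards [ae_restrict_of_ae e] with x hx
  rw [hx]

end Pool.Agent.H.MP_9d555c_an
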